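import Mathlib
set_option autoImplicit false
namespace Pool.Agent.Helper188.KM
open Module

section lin
variable {P Q : Type*} [AddCommGroup P] [Module ℚ P] [FiniteDimensional ℚ P]
  [AddCommGroup Q] [Module ℚ Q] [FiniteDimensional ℚ Q]

/-- increment of dimension when `D` is added to `U` -/
noncomputable def inc (D U : Submodule ℚ P) : ℕ := finrank ℚ ↥(D ⊔ U) - finrank ℚ ↥U

theorem inc_add (D U : Submodule ℚ P) : inc D U + finrank ℚ ↥U = finrank ℚ ↥(D ⊔ U) := by
  unfold inc
  have : finrank ℚ ↥U ≤ finrank ℚ ↥(D ⊔ U) := Submodule.finrank_mono le_sup_right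
  omega

omit [FiniteDimensional ℚ Q] in
theorem finrank_map_inf_ker (f : P →ₗ[ℚ] Q) (W : Submodule ℚ P) :
    finrank ℚ ↥(W.map f) + finrank ℚ ↥(W ⊓ LinearMap.ker f) = finrank ℚ ↥W := by
  have h := LinearMap.finrank_range_add_finrank_ker (f.domRestrict W)
  have h1 : LinearMap.range (f.domRestrict W) = W.map f := by
    ext x; simp [LinearMap.mem_range, Submodule.mem_map]
  rw [h1] at h
  have h2 : finrank ℚ ↥(LinearMap.ker (f.domRestrict W)) = finrank ℚ ↥(W ⊓ LinearMap.ker f) := by
    have h3 : (LinearMap.ker (f.domRestrict W)).map W.subtype = W ⊓ LinearMap.ker f := by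
      ext x
      simp only [Submodule.mem_map, LinearMap.mem_ker, Submodule.mem_inf, Submodule.subtype_apply]
      constructor
      · rintro ⟨y, hy, rfl⟩
        exact ⟨y.2, by simpa using hy⟩
      · rintro ⟨hx, hx2⟩
        exact ⟨⟨x, hx⟩, by simpa using hx2, rfl⟩
    rw [← h3]
    exact (LinearEquiv.finrank_eq (Submodule.equivMapOfInjective W.subtype (Submodule.injective_subtype W) _))
  omega

theorem inc_le (T : Q →ₗ[ℚ] P) {D U : Submodule ℚ Q} {D' U' : Submodule ℚ P}
    (hD : D' ≤ D.map T) (hU : U.map T ≤ U') : inc D' U' ≤ inc D U := by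
  -- consider the quotient by U'
  have e1 := finrank_map_inf_ker (U'.mkQ) (D' ⊔ U')
  have e2 := finrank_map_inf_ker (U'.mkQ ∘ₗ T) (D ⊔ U)
  have h1 : (D' ⊔ U') ⊓ LinearMap.ker U'.mkQ = U' := by
    rw [Submodule.ker_mkQ]; exact inf_eq_right.mpr le_sup_right
  rw [h1] at e1
  have h2 : (D' ⊔ U').map U'.mkQ ≤ (D ⊔ U).map (U'.mkQ ∘ₗ T) := by
    rw [Submodule.map_sup, Submodule.map_comp]
    have : U'.map U'.mkQ = ⊥ := by simp
    rw [this, sup_bot_eq]
    exact Submodule.map_mono (hD.trans (Submodule.map_mono le_sup_left))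
  have h3 : U ≤ (D ⊔ U) ⊓ LinearMap.ker (U'.mkQ ∘ₗ T) := by
    refine le_inf le_sup_right ?_
    intro x hx
    rw [LinearMap.mem_ker, LinearMap.comp_apply, Submodule.mkQ_apply, Submodule.Quotient.mk_eq_zero]
    exact hU (Submodule.mem_map_of_mem hx)
  have i2 := Submodule.finrank_mono (R := ℚ) h2
  have i3 := Submodule.finrank_mono (R := ℚ) h3
  have a1 := inc_add D' U'
  have a2 := inc_add D U
  omega

/-- sum of the `D j`, `j ∈ S`, with key smaller than that of `i` -/
def low {L : Type*} [LinearOrder L] (key : ℕ → L) (D : ℕ → Submodule ℚ P) (S : Finset ℕ) (i : ℕ) :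
    Submodule ℚ P := ⨆ j ∈ S, ⨆ _ : key j < key i, D j

theorem telescope {L : Type*} [LinearOrder L] (key : ℕ → L) (D : ℕ → Submodule ℚ P) (S : Finset ℕ)
    (hinj : Set.InjOn key S) :
    finrank ℚ ↥(⨆ j ∈ S, D j) = ∑ i ∈ S, inc (D i) (low key D S i) := by
  classical
  induction S using Finset.induction_on_max_value key with
  | empty => simp
  | insert a S haS hmax ih =>
    have hlt : ∀ j ∈ S, key j < key a := by
      intro j hj
      refine lt_of_le_of_ne (hmax j hj) ?_
      intro h
      have := hinj (by simp [hj]) (by simp) h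
      exact haS (this ▸ hj)
    rw [Finset.sum_insert haS]
    have hS : ∀ i ∈ S, low key D (insert a S) i = low key D S i := by
      intro i hi
      unfold low
      apply le_antisymm
      · refine iSup₂_le fun j hj => iSup_le fun hji => ?_
        rcases Finset.mem_insert.mp hj with rfl | hj
        · exact absurd hji (not_lt.mpr (hlt i hi).le)
        · exact le_iSup_of_le j (le_iSup_of_le hj (le_iSup_of_le hji le_rfl))
      · refine iSup₂_le fun j hj => iSup_le fun hji => ?_
        exact le_iSup_of_le j (le_iSup_of_le (Finset.mem_insert_of_mem hj) (le_iSup_of_le hji le_rfl))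
    have ha : low key D (insert a S) a = ⨆ j ∈ S, D j := by
      unfold low
      apply le_antisymm
      · refine iSup₂_le fun j hj => iSup_le fun hji => ?_
        rcases Finset.mem_insert.mp hj with rfl | hj
        · exact absurd hji (lt_irrefl _)
        · exact le_iSup_of_le j (le_iSup_of_le hj le_rfl)
      · refine iSup₂_le fun j hj => ?_
        exact le_iSup_of_le j (le_iSup_of_le (Finset.mem_insert_of_mem hj) (le_iSup_of_le (hlt j hj) le_rfl))
    rw [ha, Finset.sum_congr rfl (fun i hi => by rw [hS i hi]), ← ih (hinj.mono (by simp)), inc_add,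
      Finset.iSup_insert]

end lin

section core
variable {P Q : Type*} [AddCommGroup P] [Module ℚ P] [FiniteDimensional ℚ P]
  [AddCommGroup Q] [Module ℚ Q] [FiniteDimensional ℚ Q]

theorem core {L : Type*} [LinearOrder L] (N : ℕ) (key : ℕ → L)
    (hinj : Set.InjOn key (Finset.range (N + 1)))
    (DV : ℕ → Submodule ℚ P) (DE : ℕ → Submodule ℚ Q)
    (T H : ℕ → (Q →ₗ[ℚ] P))
    (hT : ∀ i < N, DV i ≤ (DE i).map (T i))
    (hT' : ∀ i < N, ∀ j < N, key j < key i → (DE j).map (T i) ≤ DV j)
    (hH : ∀ i < N, DV (i + 1) ≤ (DE i).map (H i))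
    (hH' : ∀ i < N, ∀ j < N, key j < key i →
      (DE j).map (H i) = ⊥ ∨ ((DE j).map (H i) ≤ DV (j + 1) ∧ key (j + 1) < key (i + 1)))
    (h0 : ∃ b ≤ N, key b < key 0 ∧ DV 0 ≤ DV b)
    (hN : ∃ c ≤ N, key c < key N ∧ DV N ≤ DV c)
    (i0 : ℕ) (hi0 : i0 < N) (hmin : ∀ j < N, key i0 ≤ key j) :
    finrank ℚ ↥(⨆ j ∈ Finset.range (N + 1), DV j) + finrank ℚ ↥(DE i0) ≤
      finrank ℚ ↥(⨆ j ∈ Finset.range N, DE j) := by
  have hinjE : Set.InjOn key (Finset.range N) := hinj.mono (by
    intro x hx; simp only [Finset.coe_range, Set.mem_Iio] at hx ⊢; omega)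
  rw [telescope key DV _ hinj, telescope key DE _ hinjE]
  set mv : ℕ → ℕ := fun i => inc (DV i) (low key DV (Finset.range (N + 1)) i) with hmv
  set me : ℕ → ℕ := fun i => inc (DE i) (low key DE (Finset.range N) i) with hme
  have hvT : ∀ i < N, mv i ≤ me i := by
    intro i hi
    refine inc_le (T i) (hT i hi) ?_
    unfold low
    simp only [Submodule.map_iSup]
    refine iSup₂_le fun j hj => iSup_le fun hji => ?_
    have hj' : j < N := Finset.mem_range.mp hj
    exact (hT' i hi j hj' hji).trans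
      (le_iSup_of_le j (le_iSup_of_le (Finset.mem_range.mpr (by omega)) (le_iSup_of_le hji le_rfl)))
  have hvH : ∀ i < N, mv (i + 1) ≤ me i := by
    intro i hi
    refine inc_le (H i) (hH i hi) ?_
    unfold low
    simp only [Submodule.map_iSup]
    refine iSup₂_le fun j hj => iSup_le fun hji => ?_
    have hj' : j < N := Finset.mem_range.mp hj
    rcases hH' i hi j hj' hji with h | ⟨h, h'⟩
    · rw [h]; exact bot_le
    · exact h.trans
        (le_iSup_of_le (j + 1) (le_iSup_of_le (Finset.mem_range.mpr (by omega)) (le_iSup_of_le h' le_rfl)))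
  have hzero : ∀ i ≤ N, (∃ b ≤ N, key b < key i ∧ DV i ≤ DV b) → mv i = 0 := by
    rintro i hi ⟨b, hb, hbk, hbD⟩
    have hle : DV i ≤ low key DV (Finset.range (N + 1)) i := by
      refine hbD.trans ?_
      unfold low
      exact (le_iSup_of_le b (le_iSup_of_le (Finset.mem_range.mpr (by omega)) (le_iSup_of_le hbk le_rfl)))
    have := inc_add (DV i) (low key DV (Finset.range (N + 1)) i)
    rw [sup_eq_right.mpr hle] at this
    simp only [hmv]
    omega
  have hv0 : mv 0 = 0 := hzero 0 (by omega) h0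
  have hvN : mv N = 0 := hzero N le_rfl hN
  have hme0 : me i0 = finrank ℚ ↥(DE i0) := by
    have hl : low key DE (Finset.range N) i0 = ⊥ := by
      unfold low
      rw [eq_bot_iff]
      refine iSup₂_le fun j hj => iSup_le fun hji => ?_
      exact absurd hji (not_lt.mpr (hmin j (Finset.mem_range.mp hj)))
    have := inc_add (DE i0) (low key DE (Finset.range N) i0)
    rw [hl, sup_bot_eq, finrank_bot, add_zero] at this
    simp only [hme, hl]; exact this
  -- the pairing
  have key1 : ∀ n ≤ N, n ≤ i0 → ∑ i ∈ Finset.range (n + 1), mv i ≤ ∑ i ∈ Finset.range n, me i := by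
    intro n
    induction n with
    | zero => intro _ _; simp [hv0]
    | succ n ih =>
      intro h1 h2
      rw [Finset.sum_range_succ, Finset.sum_range_succ (fun i => me i)]
      have := ih (by omega) (by omega)
      have := hvH n (by omega)
      omega
  have key2 : ∀ n, i0 + 1 + n ≤ N → ∑ i ∈ Finset.range (i0 + 1 + n), mv i + finrank ℚ ↥(DE i0) ≤
      ∑ i ∈ Finset.range (i0 + 1 + n), me i := by
    intro n
    induction n with
    | zero =>
      intro _
      rw [add_zero, Finset.sum_range_succ (fun i => me i), hme0]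
      have := key1 i0 (by omega) le_rfl
      omega
    | succ n ih =>
      intro h1
      rw [← add_assoc, Finset.sum_range_succ, Finset.sum_range_succ (fun i => me i)]
      have := ih (by omega)
      have := hvT (i0 + 1 + n) (by omega)
      omega
  have := key2 (N - (i0 + 1)) (by omega)
  rw [show i0 + 1 + (N - (i0 + 1)) = N by omega] at this
  rw [Finset.sum_range_succ]
  simp only [hmv, hme] at this hvN ⊢
  omega

end core

section order

theorem exists_fut {α : Type} (w : ℤ → α) (a b : ℤ) (hab : ∃ n : ℕ, w (a + n) ≠ w (b + n)) :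
    ∃ (L : Type) (_ : LinearOrder L) (k : ℤ → L),
      (∀ s t, k s = k t ↔ ∀ n : ℕ, w (s + n) = w (t + n)) ∧
      (∀ s t, w s = w t → (k s < k t ↔ k (s + 1) < k (t + 1))) ∧ k b < k a := by
  classical
  let _ : LinearOrder α := linearOrderOfSTO (WellOrderingRel : α → α → Prop)
  let f : ℤ → Lex (ℕ → α) := fun t => toLex (fun n : ℕ => w (t + n))
  have f1 : ∀ s t, f s = f t ↔ ∀ n : ℕ, w (s + n) = w (t + n) := by
    intro s t
    constructor
    · intro h n
      exact congrFun (toLex.injective h) n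
    · intro h
      exact congrArg toLex (funext h)
  have flt : ∀ s t, f s < f t ↔ ∃ i : ℕ, (∀ j < i, w (s + j) = w (t + j)) ∧ w (s + i) < w (t + i) :=
    fun s t => Iff.rfl
  have f2 : ∀ s t, w s = w t → (f s < f t ↔ f (s + 1) < f (t + 1)) := by
    intro s t hst
    rw [flt, flt]
    constructor
    · rintro ⟨i, hi, hlt⟩
      rcases i with _ | i
      · simp [hst] at hlt
      · refine ⟨i, fun j hj => ?_, ?_⟩
        · have := hi (j + 1) (by omega)
          rwa [Nat.cast_add, Nat.cast_one, add_comm (j : ℤ) 1, ← add_assoc, ← add_assoc] at this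
        · rwa [Nat.cast_add, Nat.cast_one, add_comm (i : ℤ) 1, ← add_assoc, ← add_assoc] at hlt
    · rintro ⟨i, hi, hlt⟩
      refine ⟨i + 1, fun j hj => ?_, ?_⟩
      · rcases j with _ | j
        · simpa using hst
        · have := hi j (by omega)
          rwa [Nat.cast_add, Nat.cast_one, add_comm (j : ℤ) 1, ← add_assoc, ← add_assoc]
      · rwa [Nat.cast_add, Nat.cast_one, add_comm (i : ℤ) 1, ← add_assoc, ← add_assoc]
  have hne : f a ≠ f b := by
    intro h
    obtain ⟨n, hn⟩ := hab
    exact hn ((f1 a b).mp h n)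
  rcases lt_or_gt_of_ne hne with h | h
  · refine ⟨(Lex (ℕ → α))ᵒᵈ, inferInstance, fun t => OrderDual.toDual (f t), ?_, ?_, ?_⟩
    · intro s t; rw [← f1]; exact OrderDual.toDual.injective.eq_iff
    · intro s t hst
      rw [OrderDual.toDual_lt_toDual, OrderDual.toDual_lt_toDual]
      exact f2 t s hst.symm
    · rwa [OrderDual.toDual_lt_toDual]
  · exact ⟨Lex (ℕ → α), inferInstance, f, f1, f2, h⟩

theorem exists_key {α : Type} (w : ℤ → α) (a b c d : ℤ)
    (hper : ∀ P : ℤ, 0 < P → ∃ t, w (t + P) ≠ w t)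
    (hab : ∃ s : ℕ, w (a + s) ≠ w (b + s))
    (hcd : ∀ s : ℕ, w (c + s) = w (d + s)) (hcd' : c < d) :
    ∃ (L : Type) (_ : LinearOrder L) (key : ℤ → L), Function.Injective key ∧
     (∀ s t, w s = w t → (key s < key t ↔ key (s + 1) < key (t + 1))) ∧ key b < key a ∧ key c < key d := by
  obtain ⟨L1, _, k1, e1, i1, o1⟩ := exists_fut w a b hab
  have hpast : ∃ n : ℕ, w (-((1 - d) + n)) ≠ w (-((1 - c) + n)) := by
    by_contra hcon
    push Not at hcon
    obtain ⟨t, ht⟩ := hper (d - c) (by omega)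
    apply ht
    rcases le_or_gt c t with h | h
    · have := hcd (t - c).toNat
      rw [Int.toNat_of_nonneg (by omega)] at this
      rw [show t + (d - c) = d + (t - c) by ring, ← this]
      congr 1; ring
    · have := hcon (c - 1 - t).toNat
      rw [Int.toNat_of_nonneg (by omega)] at this
      rw [show t + (d - c) = -((1 - d) + (c - 1 - t)) by ring, this]
      congr 1; ring
  obtain ⟨L2, _, k2, e2, i2, o2⟩ := exists_fut (fun t => w (-t)) (1 - d) (1 - c) hpast
  refine ⟨L1 ×ₗ L2, inferInstance, fun t => toLex (k1 t, k2 (1 - t)), ?_, ?_, ?_, ?_⟩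
  · intro s t hst
    have h := toLex.injective hst
    rw [Prod.mk.injEq] at h
    obtain ⟨h1, h2⟩ := h
    rw [e1] at h1
    rw [e2] at h2
    have main : ∀ s t : ℤ, (∀ n : ℕ, w (s + n) = w (t + n)) →
        (∀ n : ℕ, w (-((1 - s) + n)) = w (-((1 - t) + n))) → ¬ s < t := by
      intro s t h1 h2 hlt
      obtain ⟨r, hr⟩ := hper (t - s) (by omega)
      apply hr
      rcases le_or_gt s r with h | h
      · have := h1 (r - s).toNat
        rw [Int.toNat_of_nonneg (by omega)] at this
        rw [show r + (t - s) = t + (r - s) by ring, ← this]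
        congr 1; ring
      · have := h2 (s - 1 - r).toNat
        rw [Int.toNat_of_nonneg (by omega)] at this
        rw [show r + (t - s) = -((1 - t) + (s - 1 - r)) by ring, ← this]
        congr 1; ring
    rcases lt_trichotomy s t with h | h | h
    · exact absurd h (main s t h1 h2)
    · exact h
    · exact absurd h (main t s (fun n => (h1 n).symm) (fun n => (h2 n).symm))
  · intro s t hst
    simp only [Prod.Lex.toLex_lt_toLex]
    have A := i1 s t hst
    have A' := i1 t s hst.symm
    have B := i2 (-s) (-t) (by simpa using hst)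
    have E : k1 s = k1 t ↔ k1 (s + 1) = k1 (t + 1) := by
      constructor
      · intro h
        apply le_antisymm
        · rw [← not_lt, ← A', h]; exact lt_irrefl _
        · rw [← not_lt, ← A, h]; exact lt_irrefl _
      · intro h
        apply le_antisymm
        · rw [← not_lt, A', h]; exact lt_irrefl _
        · rw [← not_lt, A, h]; exact lt_irrefl _
    rw [show (1 : ℤ) - (s + 1) = -s by ring, show (1 : ℤ) - (t + 1) = -t by ring, B,
      show (-s + 1 : ℤ) = 1 - s by ring, show (-t + 1 : ℤ) = 1 - t by ring, A, E]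
  · rw [Prod.Lex.toLex_lt_toLex]; exact Or.inl o1
  · rw [Prod.Lex.toLex_lt_toLex]; exact Or.inr ⟨(e1 c d).mpr hcd, o2⟩

end order


section window

theorem sm_lower (c0 : ℤ → ℤ) (hc : StrictMono c0) (n : ℕ) : c0 (-n) ≤ c0 0 - n := by
  induction n with
  | zero => simp
  | succ n ih =>
    have : c0 (-((n + 1 : ℕ) : ℤ)) < c0 (-(n : ℤ)) := hc (by push_cast; omega)
    push_cast at this ⊢
    omega

theorem sm_upper (c0 : ℤ → ℤ) (hc : StrictMono c0) (n : ℕ) : c0 0 + n ≤ c0 n := by
  induction n with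
  | zero => simp
  | succ n ih =>
    have : c0 (n : ℤ) < c0 ((n + 1 : ℕ) : ℤ) := hc (by push_cast; omega)
    push_cast at this ⊢
    omega

theorem window {α β : Type} [Finite β] (w : ℤ → α) (hw : ∀ p : ℤ, 0 < p → ∃ i : ℤ, w (i + p) ≠ w i)
    (c0 : ℤ → ℤ) (hc : StrictMono c0) (τ : ℤ → β) :
    ∃ a ∈ Set.range c0, ∃ b ∈ Set.range c0, ∃ c ∈ Set.range c0, ∃ d ∈ Set.range c0,
      a < b ∧ b ≤ c ∧ c < d ∧ τ a = τ b ∧ τ c = τ d ∧
      ∃ (L : Type) (_ : LinearOrder L) (key : ℤ → L), Function.Injective key ∧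
      (∀ s t, a ≤ s → s < d → a ≤ t → t < d → w s = w t → (key s < key t ↔ key (s + 1) < key (t + 1))) ∧
      key b < key a ∧ key c < key d := by
  classical
  -- first pair
  have E1 : ∃ m n : ℤ, m < n ∧ τ (c0 m) = τ (c0 n) ∧ ∃ t, c0 m ≤ t ∧ w (t + (c0 n - c0 m)) ≠ w t := by
    by_contra hcon
    push Not at hcon
    obtain ⟨y, hy⟩ := Finite.exists_infinite_fiber (fun n : ℕ => τ (c0 (-(n : ℤ))))
    have hinf : ((fun n : ℕ => τ (c0 (-(n : ℤ)))) ⁻¹' {y}).Infinite := Set.infinite_coe_iff.mp hy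
    obtain ⟨n1, hn1⟩ := hinf.nonempty
    obtain ⟨n2, hn2, h12⟩ := hinf.exists_gt n1
    have e1 : τ (c0 (-(n1 : ℤ))) = y := hn1
    have e2 : τ (c0 (-(n2 : ℤ))) = y := hn2
    have hP1 : c0 (-(n2 : ℤ)) < c0 (-(n1 : ℤ)) := hc (by omega)
    obtain ⟨i, hi⟩ := hw (c0 (-(n1 : ℤ)) - c0 (-(n2 : ℤ))) (by omega)
    apply hi
    obtain ⟨n, hn, hgt⟩ := hinf.exists_gt (max n1 (c0 0 - i).toNat)
    have e3 : τ (c0 (-(n : ℤ))) = y := hn
    have hn1' : n1 < n := lt_of_le_of_lt (le_max_left _ _) hgt
    have hn2' : (c0 0 - i).toNat < n := lt_of_le_of_lt (le_max_right _ _) hgt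
    have hle : c0 (-(n : ℤ)) ≤ i := by
      have := sm_lower c0 hc n
      have := Int.self_le_toNat (c0 0 - i)
      omega
    have hP : c0 (-(n : ℤ)) < c0 (-(n1 : ℤ)) := hc (by omega)
    set P := c0 (-(n1 : ℤ)) - c0 (-(n : ℤ)) with hPdef
    have hstep : ∀ t, c0 (-(n : ℤ)) ≤ t → w (t + P) = w t :=
      hcon (-(n : ℤ)) (-(n1 : ℤ)) (by omega) (by rw [e1, e3])
    have hiter : ∀ j : ℕ, ∀ t, c0 (-(n : ℤ)) ≤ t → w (t + j * P) = w t := by
      intro j
      induction j with
      | zero => intro t _; simp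
      | succ j ih =>
        intro t ht
        have hjP : 0 ≤ (j : ℤ) * P := by positivity
        have := hstep (t + j * P) (by omega)
        rw [show t + ((j + 1 : ℕ) : ℤ) * P = t + j * P + P by push_cast; ring, this]
        exact ih t ht
    set P1 := c0 (-(n1 : ℤ)) - c0 (-(n2 : ℤ)) with hP1def
    have hP1' : 0 < P1 := by omega
    set j := (c0 (-(n2 : ℤ)) - i).toNat with hj
    have hjj : c0 (-(n2 : ℤ)) ≤ i + j * P := by
      have h1 := Int.self_le_toNat (c0 (-(n2 : ℤ)) - i)
      have h2 : (j : ℤ) * 1 ≤ j * P := by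
        apply mul_le_mul_of_nonneg_left (by omega) (by positivity)
      omega
    have s1 := hiter j (i + P1) (by omega)
    have s2 := hiter j i hle
    have s3 := hcon (-(n2 : ℤ)) (-(n1 : ℤ)) (by omega) (by rw [e1, e2]) (i + j * P) hjj
    rw [← s1, show i + P1 + j * P = i + j * P + P1 by ring, s3, s2]
  obtain ⟨m, n, hmn, hτ, tv, htv, hviol⟩ := E1
  set a := c0 m with ha
  set b := c0 n with hb
  have hab : a < b := hc hmn
  set p := b - a with hp
  -- second pair
  obtain ⟨y, hy⟩ := Finite.exists_infinite_fiber (fun n : ℕ => τ (c0 (n : ℤ)))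
  have hinf : ((fun n : ℕ => τ (c0 (n : ℤ))) ⁻¹' {y}).Infinite := Set.infinite_coe_iff.mp hy
  obtain ⟨n3, hn3, h3⟩ := hinf.exists_gt (max (b - c0 0).toNat (tv + p - c0 0).toNat)
  obtain ⟨n4, hn4, h34⟩ := hinf.exists_gt n3
  set c := c0 (n3 : ℤ) with hcdef
  set d := c0 (n4 : ℤ) with hddef
  have hcd : c < d := hc (by omega)
  have hup := sm_upper c0 hc n3
  have hb1 : b ≤ c := by
    have := Int.self_le_toNat (b - c0 0)
    have := le_max_left (b - c0 0).toNat (tv + p - c0 0).toNat
    omega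
  have hb2 : tv + p < c := by
    have := Int.self_le_toNat (tv + p - c0 0)
    have := le_max_right (b - c0 0).toNat (tv + p - c0 0).toNat
    omega
  set q := d - c with hq
  refine ⟨a, ⟨m, rfl⟩, b, ⟨n, rfl⟩, c, ⟨n3, rfl⟩, d, ⟨n4, rfl⟩, hab, hb1, hcd, hτ, ?_, ?_⟩
  · have e3 : τ (c0 (n3 : ℤ)) = y := hn3
    have e4 : τ (c0 (n4 : ℤ)) = y := hn4
    rw [hcdef, hddef, e3, e4]
  let w' : ℤ → α := fun t => if t < a then w (a + (t - a) % p) else if t < c then w t else w (c + (t - c) % q)
  have W1 : ∀ t, a ≤ t → t < d → w' t = w t := by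
    intro t h1 h2
    simp only [w']
    rw [if_neg (by omega)]
    split_ifs with h3
    · rfl
    · rw [Int.emod_eq_of_lt (by omega) (by omega)]; congr 1; ring
  have W2 : ∀ t, t < a → w' (t + p) = w' t := by
    intro t ht
    simp only [w']
    rw [if_pos ht]
    split_ifs with h1 h2
    · congr 2
      rw [show t + p - a = t - a + p by ring, Int.add_emod_right]
    · congr 1
      have : (t - a) % p = t - a + p := by
        rw [← Int.add_emod_right, Int.emod_eq_of_lt (by omega) (by omega)]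
      rw [this]; ring
    · omega
  have W3 : ∀ t, c ≤ t → w' (t + q) = w' t := by
    intro t ht
    simp only [w']
    rw [if_neg (by omega), if_neg (by omega), if_neg (by omega), if_neg (by omega)]
    congr 2
    rw [show t + q - c = t - c + q by ring, Int.add_emod_right]
  have W4 : w' (tv + p) ≠ w' tv := by
    rw [W1 tv htv (by omega), W1 (tv + p) (by omega) (by omega)]
    exact hviol
  have W5 : ∀ P : ℤ, 0 < P → ∃ t, w' (t + P) ≠ w' t := by
    intro P hP
    by_contra hcon
    push Not at hcon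
    have hiter : ∀ j : ℕ, ∀ t, w' (t - j * P) = w' t := by
      intro j
      induction j with
      | zero => intro t; simp
      | succ j ih =>
        intro t
        rw [← ih t, ← hcon (t - ((j + 1 : ℕ) : ℤ) * P)]
        congr 1; push_cast; ring
    apply W4
    set j := (tv - a).toNat + 1 with hj
    have hja : tv - j * P < a := by
      have h1 := Int.self_le_toNat (tv - a)
      have h2 : (j : ℤ) * 1 ≤ j * P := mul_le_mul_of_nonneg_left (by omega) (by positivity)
      push_cast [hj] at h2 ⊢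
      omega
    have := W2 _ hja
    rw [hiter] at this
    rw [← this, ← hiter j (tv + p)]
    congr 1; ring
  have W6 : ∃ s : ℕ, w' (a + s) ≠ w' (b + s) := by
    refine ⟨(tv - a).toNat, ?_⟩
    rw [Int.toNat_of_nonneg (by omega), show a + (tv - a) = tv by ring, show b + (tv - a) = tv + p by rw [hp]; ring]
    exact W4.symm
  have W7 : ∀ s : ℕ, w' (c + s) = w' (d + s) := by
    intro s
    rw [← W3 (c + s) (by omega)]
    congr 1; rw [hq]; ring
  obtain ⟨L, iL, key, hinj, hinv, h1, h2⟩ := exists_key w' a b c d W5 W6 W7 hcd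
  refine ⟨L, iL, key, hinj, ?_, h1, h2⟩
  intro s t hs1 hs2 ht1 ht2 hst
  exact hinv s t (by rw [W1 s hs1 hs2, W1 t ht1 ht2, hst])

end window

section readers
variable {α : Type}

/-- `k` readers of the word `w` over `X`: `st j t = (x, o)` means that at time `t` reader `j` is inside
the word `x ∈ X` and has already read `o` letters of it. -/
structure IsReaders (X : Finset (List α)) (k : ℕ) (w : ℤ → α) (st : Fin k → ℤ → List α × ℕ) : Prop where
  mem : ∀ j t, (st j t).1 ∈ X
  lt : ∀ j t, (st j t).2 < (st j t).1.length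
  txt : ∀ j t, (st j t).1[(st j t).2]? = some (w t)
  step : ∀ j t, (st j t).2 + 1 < (st j t).1.length → st j (t + 1) = ((st j t).1, (st j t).2 + 1)
  cut : ∀ j t, (st j t).2 + 1 = (st j t).1.length → (st j (t + 1)).2 = 0
  inj : ∀ i j t, i ≠ j → st i t ≠ st j t

variable {X : Finset (List α)} {k : ℕ} {w : ℤ → α} {st : Fin k → ℤ → List α × ℕ}

theorem IsReaders.steps (h : IsReaders X k w st) (j : Fin k) (t : ℤ) (s : ℕ)
    (hs : (st j t).2 + s < (st j t).1.length) : st j (t + s) = ((st j t).1, (st j t).2 + s) := by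
  induction s with
  | zero => simp
  | succ s ih =>
    have h1 := ih (by omega)
    have h2 := h.step j (t + s) (by rw [h1]; simp only; omega)
    rw [show t + ((s + 1 : ℕ) : ℤ) = t + s + 1 by push_cast; ring, h2, h1]
    rfl

theorem IsReaders.steps_cut (h : IsReaders X k w st) (j : Fin k) (t : ℤ) (s : ℕ) (hs1 : 1 ≤ s)
    (hs : (st j t).2 + s = (st j t).1.length) : (st j (t + s)).2 = 0 := by
  obtain ⟨s, rfl⟩ : ∃ r, s = r + 1 := ⟨s - 1, by omega⟩
  have h1 := h.steps j t s (by omega)
  have h2 := h.cut j (t + s) (by rw [h1]; simp only; omega)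
  rwa [show t + ((s + 1 : ℕ) : ℤ) = t + s + 1 by push_cast; ring]

theorem IsReaders.text (h : IsReaders X k w st) (j : Fin k) (t : ℤ) (s : ℕ)
    (hs : (st j t).2 + s < (st j t).1.length) : (st j t).1[(st j t).2 + s]? = some (w (t + s)) := by
  have h1 := h.steps j t s hs
  have h2 := h.txt j (t + s)
  rw [h1] at h2
  exact h2

/-- the vertex of a state: all states with offset `0` are identified -/
def vt (e : List α × ℕ) : List α × ℕ := if e.2 = 0 then ([], 0) else e

/-- next marked offset -/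
noncomputable def nm (Mk : List α × ℕ → Prop) (e : List α × ℕ) : ℕ :=
  sInf {o | e.2 < o ∧ (o = e.1.length ∨ Mk (e.1, o))}

theorem nm_spec (Mk : List α × ℕ → Prop) (e : List α × ℕ) (he : e.2 < e.1.length) :
    e.2 < nm Mk e ∧ nm Mk e ≤ e.1.length ∧ (nm Mk e = e.1.length ∨ Mk (e.1, nm Mk e)) ∧
      ∀ o, e.2 < o → o < nm Mk e → ¬ Mk (e.1, o) := by
  have hne : {o | e.2 < o ∧ (o = e.1.length ∨ Mk (e.1, o))}.Nonempty := ⟨e.1.length, he, Or.inl rfl⟩
  have hmem := Nat.sInf_mem hne
  refine ⟨hmem.1, Nat.sInf_le ⟨he, Or.inl rfl⟩, hmem.2, ?_⟩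
  intro o ho1 ho2 hM
  exact Nat.notMem_of_lt_sInf ho2 ⟨ho1, Or.inr hM⟩

/-- label of a marked state -/
noncomputable def lab (Mk : List α × ℕ → Prop) (e : List α × ℕ) : List α :=
  (e.1.drop e.2).take (nm Mk e - e.2)

/-- the vertex reached from a marked state after its label -/
noncomputable def hd (Mk : List α × ℕ → Prop) (e : List α × ℕ) : List α × ℕ :=
  open Classical in if nm Mk e = e.1.length then ([], 0) else (e.1, nm Mk e)

theorem lab_length (Mk : List α × ℕ → Prop) (e : List α × ℕ) (he : e.2 < e.1.length) :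
    (lab Mk e).length = nm Mk e - e.2 := by
  obtain ⟨h1, h2, -, -⟩ := nm_spec Mk e he
  unfold lab
  rw [List.length_take, List.length_drop]
  omega

theorem lab_eq (h : IsReaders X k w st) (Mk : List α × ℕ → Prop) (j : Fin k) (t : ℤ) :
    lab Mk (st j t) = (List.range (nm Mk (st j t) - (st j t).2)).map (fun s : ℕ => w (t + s)) := by
  obtain ⟨h1, h2, -, -⟩ := nm_spec Mk (st j t) (h.lt j t)
  apply List.ext_getElem?
  intro n
  unfold lab
  rw [List.getElem?_take]
  split_ifs with hn
  · rw [List.getElem?_drop, h.text j t n (by omega)]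
    simp [hn]
  · simp only [List.getElem?_map]
    rw [List.getElem?_eq_none (by simpa using hn)]
    rfl

theorem hd_eq (h : IsReaders X k w st) (Mk : List α × ℕ → Prop) (j : Fin k) (t : ℤ) :
    vt (st j (t + ((nm Mk (st j t) - (st j t).2 : ℕ) : ℤ))) = hd Mk (st j t) := by
  obtain ⟨h1, h2, -, -⟩ := nm_spec Mk (st j t) (h.lt j t)
  unfold hd
  split_ifs with h3
  · have := h.steps_cut j t (nm Mk (st j t) - (st j t).2) (by omega) (by omega)
    unfold vt; rw [if_pos this]
  · rw [h.steps j t _ (by omega)]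
    unfold vt
    rw [if_neg (by simp only; omega)]
    congr 1; omega

end readers

section enum

theorem enum (InC : ℤ → Prop) (len : ℤ → ℕ) (a d : ℤ) (had : a < d) (ha : InC a)
    (hb : ∀ t, InC t → a ≤ t ∧ t ≤ d)
    (hlen : ∀ t, InC t → t < d → 1 ≤ len t ∧ InC (t + len t) ∧ ∀ s : ℕ, 0 < s → s < len t → ¬ InC (t + s)) :
    ∃ (N : ℕ) (tt : ℕ → ℤ), 1 ≤ N ∧ tt 0 = a ∧ tt N = d ∧
      (∀ i < N, tt i < d ∧ tt (i + 1) = tt i + len (tt i)) ∧ (∀ i ≤ N, InC (tt i)) ∧
      (∀ t, InC t → ∃ i ≤ N, tt i = t) ∧ Function.Injective tt := by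
  classical
  let f : ℤ → ℤ := fun t => t + max 1 (len t : ℤ)
  let tt : ℕ → ℤ := fun n => f^[n] a
  have t0 : tt 0 = a := rfl
  have ts : ∀ n, tt (n + 1) = tt n + max 1 (len (tt n) : ℤ) := by
    intro n; simp only [tt, Function.iterate_succ_apply', f]
  have hsm : StrictMono tt := strictMono_nat_of_lt_succ (fun n => by
    rw [ts]; have := le_max_left (1 : ℤ) (len (tt n)); omega)
  have hge : ∀ n : ℕ, a + n ≤ tt n := by
    intro n
    induction n with
    | zero => simp [t0]
    | succ n ih => rw [ts]; have := le_max_left (1 : ℤ) (len (tt n)); push_cast; omega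
  have hex : ∃ n, d ≤ tt n := ⟨(d - a).toNat, by
    have := hge (d - a).toNat; have := Int.self_le_toNat (d - a); omega⟩
  set N := Nat.find hex with hN
  have hNd : d ≤ tt N := Nat.find_spec hex
  have hlt : ∀ i < N, tt i < d := fun i hi => not_le.mp (Nat.find_min hex hi)
  have hC : ∀ i ≤ N, InC (tt i) := by
    intro i
    induction i with
    | zero => intro _; exact ha
    | succ i ih =>
      intro hi
      obtain ⟨h1, h2, -⟩ := hlen (tt i) (ih (by omega)) (hlt i (by omega))
      rw [ts, max_eq_right (by exact_mod_cast h1)]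
      exact h2
  have hstep : ∀ i < N, tt (i + 1) = tt i + len (tt i) := by
    intro i hi
    obtain ⟨h1, -, -⟩ := hlen (tt i) (hC i hi.le) (hlt i hi)
    rw [ts, max_eq_right (by exact_mod_cast h1)]
  have hNd' : tt N = d := le_antisymm (hb _ (hC N le_rfl)).2 hNd
  refine ⟨N, tt, ?_, t0, hNd', fun i hi => ⟨hlt i hi, hstep i hi⟩, hC, ?_, hsm.injective⟩
  · by_contra h
    have : N = 0 := by omega
    rw [this, t0] at hNd; omega
  · intro t ht
    rcases (hb t ht).2.eq_or_lt with h | h
    · exact ⟨N, le_rfl, by rw [hNd', h]⟩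
    · have hex2 : ∃ i, t < tt i := ⟨N, by rw [hNd']; exact h⟩
      have hspec := Nat.find_spec hex2
      have hle : Nat.find hex2 ≤ N := Nat.find_min' hex2 (by rw [hNd']; exact h)
      rcases hcase : Nat.find hex2 with _ | i
      · rw [hcase, t0] at hspec
        have := (hb t ht).1; omega
      · rw [hcase] at hspec hle
        have hnot : ¬ t < tt i := Nat.find_min hex2 (by omega)
        refine ⟨i, by omega, ?_⟩
        by_contra hne
        obtain ⟨h1, -, h3⟩ := hlen (tt i) (hC i (by omega)) (hlt i (by omega))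
        rw [hstep i (by omega)] at hspec
        have := h3 (t - tt i).toNat (by omega) (by omega)
        rw [Int.toNat_of_nonneg (by omega)] at this
        apply this
        rwa [show tt i + (t - tt i) = t by ring]

end enum

section vecs
variable {β : Type} {P : Type*} [AddCommGroup P] [Module ℚ P]

open Classical in
/-- basis vector, `0` outside of `S` -/
noncomputable def vec (S : Finset β) (v : β) : (S → ℚ) := if h : v ∈ S then Pi.single ⟨v, h⟩ 1 else 0

theorem vec_of_mem (S : Finset β) (v : β) (h : v ∈ S) : vec S v = Pi.basisFun ℚ S ⟨v, h⟩ := by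
  classical
  unfold vec
  rw [dif_pos h, Pi.basisFun_apply]

/-- linear map with prescribed values on basis vectors -/
noncomputable def lin (S : Finset β) (g : β → P) : (S → ℚ) →ₗ[ℚ] P :=
  (Pi.basisFun ℚ S).constr ℚ (fun s => g s)

theorem lin_vec (S : Finset β) (g : β → P) (v : β) (h : v ∈ S) : lin S g (vec S v) = g v := by
  rw [vec_of_mem S v h, lin, Basis.constr_basis]

theorem linInd_vec {ι : Type*} (S : Finset β) (f : ι → β) (hf : Function.Injective f) (hS : ∀ i, f i ∈ S) :
    LinearIndependent ℚ (fun i => vec S (f i)) := by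
  have h1 := (Pi.basisFun ℚ S).linearIndependent.comp (fun i => (⟨f i, hS i⟩ : S))
    (fun i j h => hf (Subtype.ext_iff.mp h))
  have h2 : (fun i => vec S (f i)) = (Pi.basisFun ℚ S) ∘ (fun i => (⟨f i, hS i⟩ : S)) :=
    funext fun i => vec_of_mem S (f i) (hS i)
  rw [h2]; exact h1

end vecs

section assembly
variable {α : Type}

open Classical in
/-- marked interior states -/
noncomputable def MF (X : Finset (List α)) (Mk : List α × ℕ → Prop) : Finset (List α × ℕ) :=
  (X.biUnion fun x => (Finset.range x.length).image (fun o => (x, o))).filter (fun e => 0 < e.2 ∧ Mk e)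

theorem mem_MF {X : Finset (List α)} {Mk : List α × ℕ → Prop} {e : List α × ℕ} :
    e ∈ MF X Mk ↔ e.1 ∈ X ∧ e.2 < e.1.length ∧ 0 < e.2 ∧ Mk e := by
  classical
  unfold MF
  simp only [Finset.mem_filter, Finset.mem_biUnion, Finset.mem_image, Finset.mem_range]
  constructor
  · rintro ⟨⟨x, hx, o, ho, rfl⟩, h⟩
    exact ⟨hx, ho, h⟩
  · rintro ⟨h1, h2, h3⟩
    exact ⟨⟨e.1, h1, e.2, h2, rfl⟩, h3⟩

open Classical in
/-- marked states (edges) -/
noncomputable def EF (X : Finset (List α)) (Mk : List α × ℕ → Prop) : Finset (List α × ℕ) :=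
  MF X Mk ∪ X.image (fun x => (x, 0))

theorem mem_EF {X : Finset (List α)} (hX : [] ∉ X) {Mk : List α × ℕ → Prop} {e : List α × ℕ} :
    e ∈ EF X Mk ↔ e.1 ∈ X ∧ e.2 < e.1.length ∧ (e.2 = 0 ∨ Mk e) := by
  classical
  unfold EF
  rw [Finset.mem_union, mem_MF, Finset.mem_image]
  constructor
  · rintro (⟨h1, h2, h3, h4⟩ | ⟨x, hx, rfl⟩)
    · exact ⟨h1, h2, Or.inr h4⟩
    · refine ⟨hx, ?_, Or.inl rfl⟩
      rcases x with _ | ⟨y, x⟩
      · exact absurd hx hX
      · simp
  · rintro ⟨h1, h2, h3⟩
    rcases Nat.eq_zero_or_pos e.2 with h0 | h0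
    · right; exact ⟨e.1, h1, by rw [← h0]⟩
    · left; exact ⟨h1, h2, h0, h3.resolve_left (by omega)⟩

open Classical in
/-- marked vertices -/
noncomputable def VF (X : Finset (List α)) (Mk : List α × ℕ → Prop) : Finset (List α × ℕ) :=
  insert ([], 0) (MF X Mk)

theorem card_EF (X : Finset (List α)) (Mk : List α × ℕ → Prop) :
    (EF X Mk).card + 1 = (VF X Mk).card + X.card := by
  classical
  unfold EF VF
  rw [Finset.card_union_of_disjoint, Finset.card_insert_of_notMem, Finset.card_image_of_injective]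
  · omega
  · intro x y h; exact (Prod.mk.inj h).1
  · rw [mem_MF]; rintro ⟨-, -, h, -⟩; exact absurd h (by simp)
  · rw [Finset.disjoint_left]
    intro e he he'
    rw [mem_MF] at he
    obtain ⟨x, -, rfl⟩ := Finset.mem_image.mp he'
    exact absurd he.2.2.1 (by simp)

theorem flat {X : Finset (List α)} (hX : [] ∉ X) (Mk : List α × ℕ → Prop) :
    ∀ (n : ℕ) (e : List α × ℕ), e ∈ EF X Mk → e.1.length - e.2 ≤ n →
      ∃ L : List (List α), (∀ y ∈ L, ∃ e' ∈ EF X Mk, lab Mk e' = y) ∧ L.flatten = e.1.drop e.2 := by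
  intro n
  induction n with
  | zero =>
    intro e he hn
    have := ((mem_EF hX).mp he).2.1
    omega
  | succ n ih =>
    intro e he hn
    obtain ⟨h1, h2, h3⟩ := (mem_EF hX).mp he
    obtain ⟨n1, n2, n3, n4⟩ := nm_spec Mk e h2
    by_cases hnm : nm Mk e = e.1.length
    · refine ⟨[lab Mk e], ?_, ?_⟩
      · intro y hy
        rw [List.mem_singleton] at hy
        exact ⟨e, he, hy.symm⟩
      · unfold lab
        rw [List.flatten_singleton, List.take_of_length_le]
        rw [List.length_drop]; omega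
    · have hMk := n3.resolve_left hnm
      obtain ⟨L, hL1, hL2⟩ := ih (e.1, nm Mk e) ((mem_EF hX).mpr ⟨h1, by simp only; omega, Or.inr hMk⟩)
        (by simp only; omega)
      refine ⟨lab Mk e :: L, ?_, ?_⟩
      · intro y hy
        rcases List.mem_cons.mp hy with rfl | hy
        · exact ⟨e, he, rfl⟩
        · exact hL1 y hy
      · rw [List.flatten_cons, hL2]
        unfold lab
        have : e.1.drop (nm Mk e) = (e.1.drop e.2).drop (nm Mk e - e.2) := by
          rw [List.drop_drop]; congr 1; omega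
        simp only
        rw [this, List.take_append_drop]

theorem main_of_window {X : Finset (List α)} {k : ℕ} {w : ℤ → α} {st : Fin k → ℤ → List α × ℕ}
    (h : IsReaders X k w st) (hX : [] ∉ X) (j0 : Fin k) (a b c d : ℤ)
    (hab : a < b) (hbc : b ≤ c) (hcd : c < d) (ha : (st j0 a).2 = 0) (hd0 : (st j0 d).2 = 0)
    (hab' : ∀ j, st j a = st j b) (hcd' : ∀ j, st j c = st j d)
    {L : Type} [LinearOrder L] (key : ℤ → L) (hinj : Function.Injective key)
    (hinv : ∀ s t, a ≤ s → s < d → a ≤ t → t < d → w s = w t → (key s < key t ↔ key (s + 1) < key (t + 1)))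
    (h1 : key b < key a) (h2 : key c < key d) :
    ∃ Y : Finset (List α), Y.card + k ≤ X.card + 1 ∧
      ∀ x ∈ X, ∃ L : List (List α), (∀ y ∈ L, y ∈ Y) ∧ L.flatten = x := by
  classical
  let R : (List α × ℕ) → (List α × ℕ) → Prop := fun v v' =>
    ∃ t, a ≤ t ∧ t ≤ d ∧ ∃ i j, v = vt (st i t) ∧ v' = vt (st j t)
  let Mk : List α × ℕ → Prop := fun v => Relation.EqvGen R v ([], 0)
  let InC : ℤ → Prop := fun t => a ≤ t ∧ t ≤ d ∧ Mk (vt (st j0 t))
  have hMk : ∀ t, a ≤ t → t ≤ d → ∀ i j, Mk (vt (st i t)) → Mk (vt (st j t)) := by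
    intro t ht1 ht2 i j hi
    exact Relation.EqvGen.trans _ _ _ (Relation.EqvGen.rel _ _ ⟨t, ht1, ht2, j, i, rfl, rfl⟩) hi
  have hMk0 : Mk ([], 0) := Relation.EqvGen.refl _
  have hCa : InC a := ⟨le_rfl, by omega, by unfold vt; rw [if_pos ha]; exact hMk0⟩
  have hCd : InC d := ⟨by omega, le_rfl, by unfold vt; rw [if_pos hd0]; exact hMk0⟩
  have hCb : InC b := ⟨by omega, by omega, by rw [← hab' j0]; exact hCa.2.2⟩
  have hCc : InC c := ⟨by omega, by omega, by rw [hcd' j0]; exact hCd.2.2⟩
  have hmk : ∀ t, InC t → ∀ j, Mk (vt (st j t)) := fun t ht j => hMk t ht.1 ht.2.1 j0 j ht.2.2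
  have stE : ∀ t, InC t → ∀ j, st j t ∈ EF X Mk := by
    intro t ht j
    refine (mem_EF hX).mpr ⟨h.mem j t, h.lt j t, ?_⟩
    by_cases h0 : (st j t).2 = 0
    · exact Or.inl h0
    · right
      have := hmk t ht j
      unfold vt at this
      rwa [if_neg h0] at this
  have stV : ∀ t, InC t → ∀ j, vt (st j t) ∈ VF X Mk := by
    intro t ht j
    unfold vt VF
    split_ifs with h0
    · exact Finset.mem_insert_self _ _
    · refine Finset.mem_insert_of_mem (mem_MF.mpr ⟨h.mem j t, h.lt j t, by omega, ?_⟩)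
      have := hmk t ht j
      unfold vt at this
      rwa [if_neg h0] at this
  -- next mark
  have hP : ∀ t, InC t → t < d → ∀ i, 1 ≤ nm Mk (st i t) - (st i t).2 ∧
      InC (t + (nm Mk (st i t) - (st i t).2 : ℕ)) ∧
      ∀ s : ℕ, 0 < s → s < nm Mk (st i t) - (st i t).2 → ¬ InC (t + s) := by
    intro t ht htd i
    obtain ⟨n1, n2, n3, n4⟩ := nm_spec Mk (st i t) (h.lt i t)
    have hno : ∀ s : ℕ, 0 < s → s < nm Mk (st i t) - (st i t).2 → ¬ InC (t + s) := by
      intro s hs1 hs2 hC
      have e1 := h.steps i t s (by omega)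
      have e2 := hmk _ hC i
      rw [e1] at e2
      unfold vt at e2
      rw [if_neg (by simp only; omega)] at e2
      exact n4 ((st i t).2 + s) (by omega) (by omega) e2
    have hle : t + ((nm Mk (st i t) - (st i t).2 : ℕ) : ℤ) ≤ d := by
      by_contra hcon
      have e1 := hno (d - t).toNat (by omega) (by omega)
      rw [Int.toNat_of_nonneg (by omega), show t + (d - t) = d by ring] at e1
      exact e1 hCd
    refine ⟨by omega, ⟨by have := ht.1; omega, hle, ?_⟩, hno⟩
    apply hMk _ (by have := ht.1; omega) hle i j0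
    rw [hd_eq h]
    unfold hd
    split_ifs with h3
    · exact hMk0
    · exact n3.resolve_left h3
  let len : ℤ → ℕ := fun t => nm Mk (st j0 t) - (st j0 t).2
  have hlenj : ∀ t, InC t → t < d → ∀ j, nm Mk (st j t) - (st j t).2 = len t := by
    intro t ht htd j
    obtain ⟨a1, a2, a3⟩ := hP t ht htd j
    obtain ⟨b1, b2, b3⟩ := hP t ht htd j0
    rcases lt_trichotomy (nm Mk (st j t) - (st j t).2) (nm Mk (st j0 t) - (st j0 t).2) with hc | hc | hc
    · exact absurd a2 (b3 _ (by omega) hc)
    · exact hc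
    · exact absurd b2 (a3 _ (by omega) hc)
  obtain ⟨N, tt, hN1, tt0, ttN, httlt, httC, httsurj, httinj⟩ := enum InC len a d (by omega) hCa
    (fun t ht => ⟨ht.1, ht.2.1⟩) (fun t ht htd => hP t ht htd j0)
  have hlab : ∀ i < N, ∀ j, lab Mk (st j (tt i)) = lab Mk (st j0 (tt i)) := by
    intro i hi j
    rw [lab_eq h, lab_eq h, hlenj _ (httC i hi.le) (httlt i hi).1 j]
  have hvt : ∀ i < N, ∀ j, vt (st j (tt (i + 1))) = hd Mk (st j (tt i)) := by
    intro i hi j
    rw [(httlt i hi).2, ← hlenj _ (httC i hi.le) (httlt i hi).1 j, hd_eq h]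
  -- the key property
  have hkey : ∀ i < N, ∀ j < N, lab Mk (st j0 (tt j)) = lab Mk (st j0 (tt i)) →
      key (tt j) < key (tt i) → key (tt (j + 1)) < key (tt (i + 1)) := by
    intro i hi j hj hl hlt
    rw [lab_eq h, lab_eq h] at hl
    have hlen : len (tt j) = len (tt i) := by
      have := congrArg List.length hl
      simpa using this
    have hw : ∀ s : ℕ, s < len (tt i) → w (tt j + s) = w (tt i + s) := by
      intro s hs
      have := congrArg (fun l => l[s]?) hl
      simp only [List.getElem?_map] at this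
      rw [List.getElem?_range (by show s < len (tt j); omega), List.getElem?_range (by exact hs)] at this
      simpa using this
    have hdi : tt i + len (tt i) ≤ d := by rw [← (httlt i hi).2]; exact (httC (i + 1) (by omega)).2.1
    have hdj : tt j + len (tt j) ≤ d := by rw [← (httlt j hj).2]; exact (httC (j + 1) (by omega)).2.1
    have hai := (httC i hi.le).1
    have haj := (httC j hj.le).1
    have hind : ∀ s : ℕ, s ≤ len (tt i) → key (tt j + s) < key (tt i + s) := by
      intro s
      induction s with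
      | zero => intro _; simpa using hlt
      | succ s ih =>
        intro hs
        have := (hinv (tt j + s) (tt i + s) (by omega) (by omega) (by omega) (by omega)
          (hw s (by omega))).mp (ih (by omega))
        push_cast
        rwa [← add_assoc, ← add_assoc]
    rw [(httlt i hi).2, (httlt j hj).2, hlen]
    exact hind _ le_rfl
  -- linear algebra
  let gV : ℕ → Fin k × Fin k → (VF X Mk → ℚ) := fun i p =>
    vec (VF X Mk) (vt (st p.1 (tt i))) - vec (VF X Mk) (vt (st p.2 (tt i)))
  let gE : ℕ → Fin k × Fin k → (EF X Mk → ℚ) := fun i p =>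
    vec (EF X Mk) (st p.1 (tt i)) - vec (EF X Mk) (st p.2 (tt i))
  let DV : ℕ → Submodule ℚ (VF X Mk → ℚ) := fun i => Submodule.span ℚ (Set.range (gV i))
  let DE : ℕ → Submodule ℚ (EF X Mk → ℚ) := fun i => Submodule.span ℚ (Set.range (gE i))
  let T : (EF X Mk → ℚ) →ₗ[ℚ] (VF X Mk → ℚ) := lin (EF X Mk) (fun e => vec (VF X Mk) (vt e))
  let H : ℕ → ((EF X Mk → ℚ) →ₗ[ℚ] (VF X Mk → ℚ)) := fun i =>
    lin (EF X Mk) (fun e => if lab Mk e = lab Mk (st j0 (tt i)) then vec (VF X Mk) (hd Mk e) else 0)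
  have mapT : ∀ j ≤ N, (DE j).map T = DV j := by
    intro j hj
    simp only [DE, DV, Submodule.map_span, ← Set.range_comp]
    congr 2
    funext p
    simp only [Function.comp_apply, gE, gV, map_sub, T]
    rw [lin_vec _ _ _ (stE _ (httC j hj) p.1), lin_vec _ _ _ (stE _ (httC j hj) p.2)]
  have mapH1 : ∀ i < N, ∀ j < N, lab Mk (st j0 (tt j)) = lab Mk (st j0 (tt i)) →
      (DE j).map (H i) = DV (j + 1) := by
    intro i hi j hj hl
    simp only [DE, DV, Submodule.map_span, ← Set.range_comp]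
    congr 2
    funext p
    simp only [Function.comp_apply, gE, gV, map_sub, H]
    rw [lin_vec _ _ _ (stE _ (httC j hj.le) p.1), lin_vec _ _ _ (stE _ (httC j hj.le) p.2),
      if_pos (by rw [hlab j hj, hl]), if_pos (by rw [hlab j hj, hl]), hvt j hj, hvt j hj]
  have mapH2 : ∀ i < N, ∀ j < N, lab Mk (st j0 (tt j)) ≠ lab Mk (st j0 (tt i)) →
      (DE j).map (H i) = ⊥ := by
    intro i hi j hj hl
    simp only [DE, Submodule.map_span, ← Set.range_comp]
    rw [Submodule.span_eq_bot]
    rintro x ⟨p, rfl⟩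
    simp only [Function.comp_apply, gE, map_sub, H]
    rw [lin_vec _ _ _ (stE _ (httC j hj.le) p.1), lin_vec _ _ _ (stE _ (httC j hj.le) p.2),
      if_neg (by rw [hlab j hj]; exact hl), if_neg (by rw [hlab j hj]; exact hl), sub_zero]
  obtain ⟨i0, hi0, hmin⟩ := Finset.exists_min_image (Finset.range N) (fun i => key (tt i))
    ⟨0, Finset.mem_range.mpr (by omega)⟩
  rw [Finset.mem_range] at hi0
  have hcore := core N (fun i => key (tt i)) (fun x _ y _ hxy => httinj (hinj hxy)) DV DE (fun _ => T) H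
    (fun i hi => (mapT i hi.le).ge)
    (fun i hi j hj _ => (mapT j hj.le).le)
    (fun i hi => (mapH1 i hi i hi rfl).ge)
    (by
      intro i hi j hj hlt
      by_cases hl : lab Mk (st j0 (tt j)) = lab Mk (st j0 (tt i))
      · exact Or.inr ⟨(mapH1 i hi j hj hl).le, hkey i hi j hj hl hlt⟩
      · exact Or.inl (mapH2 i hi j hj hl))
    (by
      obtain ⟨β, hβ, hβt⟩ := httsurj b hCb
      refine ⟨β, hβ, by simp only [hβt, tt0]; exact h1, ?_⟩
      simp only [DV, gV, hβt, tt0, hab']; exact le_rfl)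
    (by
      obtain ⟨γ, hγ, hγt⟩ := httsurj c hCc
      refine ⟨γ, hγ, by simp only [hγt, ttN]; exact h2, ?_⟩
      simp only [DV, gV, hγt, ttN, hcd']; exact le_rfl)
    i0 hi0 (fun j hj => hmin j (Finset.mem_range.mpr hj))
  -- dimension of DE i0
  have hDE : k ≤ finrank ℚ ↥(DE i0) + 1 := by
    have hli := linInd_vec (EF X Mk) (fun j : Fin k => st j (tt i0))
      (fun i j hij => by
        by_contra hne
        exact h.inj i j (tt i0) hne hij)
      (fun j => stE _ (httC i0 hi0.le) j)
    have e1 := finrank_span_eq_card hli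
    rw [Fintype.card_fin] at e1
    have e2 : Submodule.span ℚ (Set.range fun j : Fin k => vec (EF X Mk) (st j (tt i0))) ≤
        DE i0 ⊔ Submodule.span ℚ {vec (EF X Mk) (st j0 (tt i0))} := by
      rw [Submodule.span_le]
      rintro x ⟨j, rfl⟩
      have : vec (EF X Mk) (st j (tt i0)) = gE i0 (j, j0) + vec (EF X Mk) (st j0 (tt i0)) := by
        simp only [gE]; abel
      simp only [SetLike.mem_coe]
      rw [this]
      exact Submodule.add_mem_sup (Submodule.subset_span ⟨(j, j0), rfl⟩)
        (Submodule.subset_span (Set.mem_singleton _))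
    have e3 := Submodule.finrank_mono (R := ℚ) e2
    have e4 := Submodule.finrank_add_le_finrank_add_finrank (DE i0)
      (Submodule.span ℚ {vec (EF X Mk) (st j0 (tt i0))})
    have e5 : finrank ℚ ↥(Submodule.span ℚ {vec (EF X Mk) (st j0 (tt i0))}) ≤ 1 := by
      refine (finrank_span_le_card _).trans ?_
      simp
    omega
  -- dimension of UV
  set UV := ⨆ j ∈ Finset.range (N + 1), DV j with hUVdef
  have hUV : (VF X Mk).card ≤ finrank ℚ ↥UV + 1 := by
    have hconn : ∀ v v', Relation.EqvGen R v v' → Mk v → vec (VF X Mk) v - vec (VF X Mk) v' ∈ UV := by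
      intro v v' hvv
      induction hvv with
      | rel x y hxy =>
        obtain ⟨t, ht1, ht2, i, j, rfl, rfl⟩ := hxy
        intro hx
        obtain ⟨m, hm, rfl⟩ := httsurj t ⟨ht1, ht2, hMk t ht1 ht2 i j0 hx⟩
        have : gV m (i, j) ∈ DV m := Submodule.subset_span ⟨(i, j), rfl⟩
        exact (le_iSup₂_of_le m (Finset.mem_range.mpr (by omega)) le_rfl : DV m ≤ UV) this
      | refl x => intro _; rw [sub_self]; exact UV.zero_mem
      | symm x y hxy ih =>
        intro hy
        have hx : Mk x := Relation.EqvGen.trans _ _ _ hxy hy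
        have := UV.neg_mem (ih hx)
        rwa [neg_sub] at this
      | trans x y z hxy hyz ih1 ih2 =>
        intro hx
        have hy : Mk y := Relation.EqvGen.trans _ _ _ (Relation.EqvGen.symm _ _ hxy) hx
        have := UV.add_mem (ih1 hx) (ih2 hy)
        rwa [sub_add_sub_cancel] at this
    have htop : (⊤ : Submodule ℚ (VF X Mk → ℚ)) ≤ UV ⊔ Submodule.span ℚ {vec (VF X Mk) ([], 0)} := by
      rw [← (Pi.basisFun ℚ (VF X Mk)).span_eq, Submodule.span_le]
      rintro x ⟨⟨v, hv⟩, rfl⟩
      rw [← vec_of_mem]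
      have hvm : Mk v := by
        rcases Finset.mem_insert.mp hv with rfl | hv'
        · exact hMk0
        · exact (mem_MF.mp hv').2.2.2
      have := hconn v ([], 0) hvm hvm
      simp only [SetLike.mem_coe]
      have e : vec (VF X Mk) v = (vec (VF X Mk) v - vec (VF X Mk) ([], 0)) + vec (VF X Mk) ([], 0) := by abel
      rw [e]
      exact Submodule.add_mem_sup this (Submodule.subset_span (Set.mem_singleton _))
    have e3 := Submodule.finrank_mono (R := ℚ) htop
    rw [finrank_top, finrank_fintype_fun_eq_card, Fintype.card_coe] at e3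
    have e4 := Submodule.finrank_add_le_finrank_add_finrank UV
      (Submodule.span ℚ {vec (VF X Mk) ([], 0)})
    have e5 : finrank ℚ ↥(Submodule.span ℚ {vec (VF X Mk) ([], 0)}) ≤ 1 := by
      refine (finrank_span_le_card _).trans ?_
      simp
    omega
  -- dimension of UE
  let Y : Finset (List α) := (EF X Mk).image (lab Mk)
  set UE := ⨆ j ∈ Finset.range N, DE j with hUEdef
  have hUE : finrank ℚ ↥UE + Y.card ≤ (EF X Mk).card := by
    let Λ : (EF X Mk → ℚ) →ₗ[ℚ] (Y → ℚ) := lin (EF X Mk) (fun e => vec Y (lab Mk e))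
    have hker : UE ≤ LinearMap.ker Λ := by
      refine iSup₂_le fun j hj => ?_
      rw [Finset.mem_range] at hj
      simp only [DE]
      rw [Submodule.span_le]
      rintro x ⟨p, rfl⟩
      simp only [SetLike.mem_coe, LinearMap.mem_ker, gE, map_sub, Λ]
      rw [lin_vec _ _ _ (stE _ (httC j hj.le) p.1), lin_vec _ _ _ (stE _ (httC j hj.le) p.2),
        hlab j hj p.1, hlab j hj p.2, sub_self]
    have hrange : LinearMap.range Λ = ⊤ := by
      rw [eq_top_iff, ← (Pi.basisFun ℚ Y).span_eq, Submodule.span_le]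
      rintro x ⟨⟨y, hy⟩, rfl⟩
      obtain ⟨e, he, rfl⟩ := Finset.mem_image.mp hy
      rw [← vec_of_mem]
      exact ⟨vec (EF X Mk) e, lin_vec _ _ _ he⟩
    have e1 := LinearMap.finrank_range_add_finrank_ker Λ
    rw [hrange, finrank_top, finrank_fintype_fun_eq_card, finrank_fintype_fun_eq_card, Fintype.card_coe,
      Fintype.card_coe] at e1
    have e2 := Submodule.finrank_mono (R := ℚ) hker
    omega
  have hcard := card_EF X Mk
  refine ⟨Y, by omega, ?_⟩
  intro x hx
  have hx0 : x ≠ [] := fun h0 => hX (h0 ▸ hx)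
  obtain ⟨L, hL1, hL2⟩ := flat hX Mk x.length (x, 0)
    ((mem_EF hX).mpr ⟨hx, List.length_pos_iff.mpr hx0, Or.inl rfl⟩) (by simp)
  refine ⟨L, ?_, by simpa using hL2⟩
  intro y hy
  obtain ⟨e, he, rfl⟩ := hL1 y hy
  exact Finset.mem_image_of_mem _ he

end assembly

section final
variable {α : Type}

theorem exists_idx (c : ℤ → ℤ) (hc : StrictMono c) (t : ℤ) : ∃ n, c n ≤ t ∧ t < c (n + 1) := by
  have hne : ∃ n, c n ≤ t := by
    refine ⟨-((c 0 - t).toNat : ℤ), ?_⟩
    have := sm_lower c hc (c 0 - t).toNat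
    have := Int.self_le_toNat (c 0 - t)
    omega
  have hbd : ∃ b : ℤ, ∀ z : ℤ, c z ≤ t → z ≤ b := by
    refine ⟨(t - c 0).toNat, fun z hz => ?_⟩
    by_contra hcon
    push Not at hcon
    have h1 : c ((t - c 0).toNat : ℤ) < c z := hc hcon
    have h2 := sm_upper c hc (t - c 0).toNat
    have h3 := Int.self_le_toNat (t - c 0)
    omega
  obtain ⟨n, hn, hmax⟩ := Int.exists_greatest_of_bdd hbd hne
  refine ⟨n, hn, ?_⟩
  by_contra hcon
  have := hmax (n + 1) (not_lt.mp hcon)
  omega

/-- index of the last cut `≤ t` -/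
noncomputable def idx (c : ℤ → ℤ) (hc : StrictMono c) (t : ℤ) : ℤ := Classical.choose (exists_idx c hc t)

theorem idx_spec (c : ℤ → ℤ) (hc : StrictMono c) (t : ℤ) :
    c (idx c hc t) ≤ t ∧ t < c (idx c hc t + 1) := Classical.choose_spec (exists_idx c hc t)

theorem idx_unique (c : ℤ → ℤ) (hc : StrictMono c) (t n : ℤ) (h1 : c n ≤ t) (h2 : t < c (n + 1)) :
    idx c hc t = n := by
  obtain ⟨h3, h4⟩ := idx_spec c hc t
  have h5 : c n < c (idx c hc t + 1) := lt_of_le_of_lt h1 h4
  have h6 : c (idx c hc t) < c (n + 1) := lt_of_le_of_lt h3 h2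
  have h7 := hc.lt_iff_lt.mp h5
  have h8 := hc.lt_iff_lt.mp h6
  omega

/-- states of the reader with cut sequence `c` -/
noncomputable def state (w : ℤ → α) (c : ℤ → ℤ) (hc : StrictMono c) (t : ℤ) : List α × ℕ :=
  ((List.range (c (idx c hc t + 1) - c (idx c hc t)).toNat).map (fun i : ℕ => w (c (idx c hc t) + i)),
    (t - c (idx c hc t)).toNat)

theorem readers (X : Finset (List α)) (w : ℤ → α) (k : ℕ) (c : Fin k → ℤ → ℤ)
    (hc : ∀ j, StrictMono (c j))
    (hfac : ∀ j (n : ℤ), (List.range (c j (n + 1) - c j n).toNat).map (fun i : ℕ => w (c j n + i)) ∈ X)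
    (hdisj : ∀ i j, i ≠ j → ∀ m n : ℤ, c i m ≠ c j n) :
    IsReaders X k w (fun j t => state w (c j) (hc j) t) where
  mem j t := hfac j _
  lt j t := by
    obtain ⟨h1, h2⟩ := idx_spec (c j) (hc j) t
    simp only [state, List.length_map, List.length_range]
    omega
  txt j t := by
    obtain ⟨h1, h2⟩ := idx_spec (c j) (hc j) t
    simp only [state, List.getElem?_map]
    rw [List.getElem?_range (by omega)]
    simp only [Option.map_some]
    rw [Int.toNat_of_nonneg (by omega)]
    congr 2; ring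
  step j t h := by
    obtain ⟨h1, h2⟩ := idx_spec (c j) (hc j) t
    simp only [state, List.length_map, List.length_range] at h ⊢
    rw [idx_unique (c j) (hc j) (t + 1) (idx (c j) (hc j) t) (by omega) (by omega)]
    congr 1; omega
  cut j t h := by
    obtain ⟨h1, h2⟩ := idx_spec (c j) (hc j) t
    simp only [state, List.length_map, List.length_range] at h ⊢
    have h3 : c j (idx (c j) (hc j) t + 1) < c j (idx (c j) (hc j) t + 1 + 1) := hc j (by omega)
    rw [idx_unique (c j) (hc j) (t + 1) (idx (c j) (hc j) t + 1) (by omega) (by omega)]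
    omega
  inj i j t hij heq := by
    obtain ⟨h1, h2⟩ := idx_spec (c i) (hc i) t
    obtain ⟨h3, h4⟩ := idx_spec (c j) (hc j) t
    have h5 := congrArg Prod.snd heq
    simp only [state] at h5
    exact hdisj i j hij (idx (c i) (hc i) t) (idx (c j) (hc j) t) (by omega)

/-- **Karhumäki–Maňuch conjecture**, general alphabet: if a non-periodic bi-infinite word has `k`
pairwise disjoint `X`-factorizations then `X ⊆ Y*` for some `Y` with `|Y| ≤ |X| - k + 1`. -/
theorem km (X : Finset (List α)) (w : ℤ → α) (k : ℕ) (c : Fin k → ℤ → ℤ)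
    (hX : [] ∉ X) (hk : k ≤ X.card)
    (hw : ∀ p : ℤ, 0 < p → ∃ i : ℤ, w (i + p) ≠ w i)
    (hc : ∀ j, StrictMono (c j))
    (hfac : ∀ j (n : ℤ), (List.range (c j (n + 1) - c j n).toNat).map (fun i : ℕ => w (c j n + i)) ∈ X)
    (hdisj : ∀ i j, i ≠ j → ∀ m n : ℤ, c i m ≠ c j n) :
    ∃ Y : Finset (List α), Y.card ≤ X.card - k + 1 ∧
      ∀ x ∈ X, ∃ l : List (List α), (∀ y ∈ l, y ∈ Y) ∧ l.flatten = x := by
  classical
  rcases Nat.eq_zero_or_pos k with rfl | hk0
  · exact ⟨X, by omega, fun x hx => ⟨[x], by simpa using hx, by simp⟩⟩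
  let j0 : Fin k := ⟨0, hk0⟩
  have hR := readers X w k c hc hfac hdisj
  set st : Fin k → ℤ → List α × ℕ := fun j t => state w (c j) (hc j) t with hst
  have hS : ∀ j t, st j t ∈ EF X (fun _ => True) := fun j t =>
    (mem_EF hX).mpr ⟨hR.mem j t, hR.lt j t, Or.inr trivial⟩
  obtain ⟨a, ⟨na, rfl⟩, b, -, c', -, d, ⟨nd, rfl⟩, hab, hbc, hcd, hτ1, hτ2, L, iL, key, hinj, hinv, h1, h2⟩ :=
    window (β := Fin k → EF X (fun _ => True)) w hw (c j0) (hc j0) (fun t j => ⟨st j t, hS j t⟩)
  have hcut : ∀ n, (st j0 (c j0 n)).2 = 0 := by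
    intro n
    have h3 : c j0 n < c j0 (n + 1) := hc j0 (by omega)
    simp only [hst, state]
    rw [idx_unique (c j0) (hc j0) (c j0 n) n le_rfl h3]
    simp
  obtain ⟨Y, hY, hY2⟩ := main_of_window hR hX j0 _ b c' _ hab hbc hcd (hcut na) (hcut nd)
    (fun j => by have := congrFun hτ1 j; exact Subtype.ext_iff.mp this)
    (fun j => by have := congrFun hτ2 j; exact Subtype.ext_iff.mp this) key hinj hinv h1 h2
  exact ⟨Y, by omega, hY2⟩

end final

end Pool.Agent.Helper188.KM
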